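import Pool.Agent.Helper86.QA.St3

/-!
# Project QD (MP_d112a4_gt), part A: module FLI (the flux does not depend on the level)
-/

set_option autoImplicit false

open MeasureTheory Matrix Set Topology
open scoped ENNReal ComplexConjugate

namespace Pool.Agent.Helper52.QA

open Pool.Agent.Helper86.QA

theorem hFLI (hFLA : StFLA) (hFL0 : StFL0) (hFLB : StFLB) : StFLI := by
  intro Γ _ ρ A B hKD σ hσ Pi hPi D hD δ hδ δ' hδ'
  obtain ⟨hm, hb, hi, hTV, hL1, -⟩ := hFLB Γ ρ A B hKD D hD δ hδ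
  obtain ⟨hm', hb', hi', hTV', -, -⟩ := hFLB Γ ρ A B hKD D hD δ' hδ'
  have hlin := (hFLA Γ ρ σ hσ Pi hPi D hD.mD (fi B δ) hm ⟨1, hb⟩).2.2.2 (fi B δ') hm' ⟨1, hb'⟩
    hTV hTV'
  have h0 := hFL0 Γ ρ A B hKD σ hσ Pi hPi D hD (fun x => fi B δ x - fi B δ' x) (hm.sub hm')
    ⟨2, fun x => by
      calc |fi B δ x - fi B δ' x| ≤ |fi B δ x| + |fi B δ' x| := abs_sub _ _
        _ ≤ 1 + 1 := add_le_add (hb x) (hb' x)
        _ = 2 := by norm_num⟩
    (fun γ x hx => by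
      show fi B δ (au ρ γ x) - fi B δ' (au ρ γ x) = fi B δ x - fi B δ' x
      rw [hi γ x hx, hi' γ x hx])
    (hL1 δ' hδ')
  rw [h0] at hlin
  linarith

end Pool.Agent.Helper52.QA
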